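import Pool.Agent.H47.ST.Targets

/-!
Steingrimsson's conjecture (MP_78620a_co): the potential inequality.
-/

namespace Pool.Agent.H99.STK

open Finset Pool.Agent.H47.ST

theorem pot_mir_mir (st : List (List ℕ)) : mir (mir st) = st := by
  unfold mir
  rw [List.map_reverse, List.reverse_reverse, List.map_map]
  have h : (List.reverse ∘ List.reverse : List ℕ → List ℕ) = id := by
    funext x
    exact List.reverse_reverse x
  rw [h, List.map_id]

theorem pot_mir_append (A B : List (List ℕ)) : mir (A ++ B) = mir B ++ mir A := by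
  unfold mir
  rw [List.map_append, List.reverse_append]

theorem pot_okR_mir (R : ℕ) (st : List (List ℕ)) : okR R (mir st) ↔ okR R st := by
  have h1 : ∀ st : List (List ℕ), okR R st → okR R (mir st) := by
    intro st h B hB r hr
    unfold mir at hB
    rw [List.mem_reverse, List.mem_map] at hB
    obtain ⟨B', hB', rfl⟩ := hB
    exact h B' hB' r (List.mem_reverse.1 hr)
  refine ⟨fun h => ?_, h1 st⟩
  have h2 := h1 _ h
  rwa [pot_mir_mir] at h2

theorem pot_okM_mir (m0 : ℕ) (st : List (List ℕ)) (h : okM m0 st) : okM m0 (mir st) := by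
  intro B hB
  unfold mir at hB
  rw [List.mem_reverse, List.mem_map] at hB
  obtain ⟨B', hB', rfl⟩ := hB
  rw [List.length_reverse]
  exact h B' hB'

theorem pot_wt_nonneg (R : ℕ) (W U : ℝ) (hW : 0 ≤ W) (hU : 0 ≤ U) (e hl r hr : ℕ) :
    0 ≤ wt R W U e hl r hr := by
  unfold wt
  split_ifs <;> positivity

theorem pot_phC_nonneg (R : ℕ) (W U : ℝ) (hW : 0 ≤ W) (hU : 0 ≤ U) (e : ℕ) (B : List ℕ) :
    ∀ hl hr : ℕ, 0 ≤ phC R W U e hl B hr := by
  induction B with
  | nil => intro hl hr; unfold phC; exact zero_le_one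
  | cons r B ih =>
    intro hl hr
    unfold phC
    exact mul_nonneg (pot_wt_nonneg R W U hW hU _ _ _ _) (ih _ _)

theorem pot_PHI_nonneg (R : ℕ) (W U D : ℝ) (hW : 0 ≤ W) (hU : 0 ≤ U) (hD : 0 ≤ D) (e : ℕ)
    (st : List (List ℕ)) : 0 ≤ PHI R W U D e st := by
  unfold PHI PA
  refine div_nonneg ?_ (pow_nonneg hD _)
  refine List.prod_nonneg ?_
  intro a ha
  obtain ⟨B, _, rfl⟩ := List.mem_map.1 ha
  exact pot_phC_nonneg R W U hW hU e B 0 0

theorem pot_flat_len (m0 : ℕ) (st : List (List ℕ)) (h : okM m0 st) :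
    st.flatten.length ≤ m0 * st.length := by
  induction st with
  | nil => simp
  | cons B st ih =>
    have h1 : B.length ≤ m0 := h B List.mem_cons_self
    have h2 := ih fun B' hB' => h B' (List.mem_cons_of_mem _ hB')
    rw [List.flatten_cons, List.length_append, List.length_cons]
    nlinarith

theorem pf_POT (h1 : T_HM) (h2 : T_SA) (h3 : T_PS) (h4 : T_PM) (h5 : T_GEO) (h6 : T_PN)
    (h7 : T_PO) (_h8 : T_PLC) : T_POT := by
  classical
  intro R m0 m W U D hR hW hU hmD hD st hst hokR hokM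
  obtain ⟨A, C, hAC, hQA, hQC⟩ := h1 st
  have hW0 : 0 ≤ W := by linarith
  have hU0 : 0 ≤ U := by linarith
  have hD0 : 0 ≤ D := by linarith
  have hokA : okM m0 A := fun B hB => hokM B (by rw [hAC]; exact List.mem_append_left _ hB)
  have hokC : okM m0 C := fun B hB => hokM B (by rw [hAC]; exact List.mem_append_right _ hB)
  have hP : ∀ s, 0 ≤ PHI R W U D 1 s := pot_PHI_nonneg R W U D hW0 hU0 hD0 1
  obtain ⟨hm1, hm2, hm3⟩ := h4
  -- drop the condition okM
  have hdrop : ∀ l : List Pl, (l.map fun q => if okR R (plq 1 q) ∧ okM m0 (plq 1 q)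
      then PHI R W U D 1 (plq 1 q) else 0).sum ≤
      (l.map fun q => if okR R (plq 1 q) then PHI R W U D 1 (plq 1 q) else 0).sum := by
    intro l
    refine List.sum_le_sum fun q _ => ?_
    by_cases ha : okR R (plq 1 q)
    · rw [if_pos ha]
      split_ifs
      · exact le_rfl
      · exact hP _
    · rw [if_neg ha, if_neg fun h => ha h.1]
  refine (hdrop _).trans ?_
  rw [hAC, h3 A C, List.map_append, List.sum_append, List.map_map, List.map_map]
  -- the first part
  have hA := h2 R m0 1 W U D A C hR hW hU hD (by norm_num) hQA hokA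
  -- the second part
  have hC := h2 R m0 0 W U D (mir C) (mir A) hR hW hU hD (by norm_num) hQC
    (pot_okM_mir m0 C hokC)
  have hperm := hm3 C
  have hsum := (hperm.map fun q => if okR R (plq 0 (q.1, q.2.1, q.2.2.1, q.2.2.2 ++ mir A)) then
      PHI R W U D 0 (plq 0 (q.1, q.2.1, q.2.2.1, q.2.2.2 ++ mir A)) else 0).sum_eq
  rw [List.map_map] at hsum
  have hgen : ∀ q : Pl, (if okR R (plq 0 (mir q.2.2.2, q.2.2.1.reverse, q.2.1.reverse,
      mir q.1 ++ mir A)) then PHI R W U D 0 (plq 0 (mir q.2.2.2, q.2.2.1.reverse, q.2.1.reverse,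
      mir q.1 ++ mir A)) else 0) =
      if okR R (plq 1 (A ++ q.1, q.2.1, q.2.2.1, q.2.2.2)) then
        PHI R W U D 1 (plq 1 (A ++ q.1, q.2.1, q.2.2.1, q.2.2.2)) else 0 := by
    intro q
    have e1 : plq 0 (mir q.2.2.2, q.2.2.1.reverse, q.2.1.reverse, mir q.1 ++ mir A) =
        mir (plq 1 (A ++ q.1, q.2.1, q.2.2.1, q.2.2.2)) := by
      show place 0 (mir q.2.2.2) q.2.2.1.reverse q.2.1.reverse (mir q.1 ++ mir A) =
        mir (place 1 (A ++ q.1) q.2.1 q.2.2.1 q.2.2.2)
      rw [hm1 1 (A ++ q.1) q.2.1 q.2.2.1 q.2.2.2 (by norm_num), pot_mir_append]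
    have e2 := hm2 R W U D 1 (plq 1 (A ++ q.1, q.2.1, q.2.2.1, q.2.2.2)) (by norm_num)
    rw [e1]
    simp only [pot_okR_mir]
    have e3 : (1 - 1 : ℕ) = 0 := rfl
    rw [e3] at e2
    rw [e2]
  have hC2 : ((plc [] C).map ((fun q => if okR R (plq 1 q) then PHI R W U D 1 (plq 1 q) else 0) ∘
      fun q => ((A ++ q.1, q.2.1, q.2.2.1, q.2.2.2) : Pl))).sum =
      ((plc [] (mir C)).map fun q => if okR R (plq 0 (q.1, q.2.1, q.2.2.1, q.2.2.2 ++ mir A)) then
      PHI R W U D 0 (plq 0 (q.1, q.2.1, q.2.2.1, q.2.2.2 ++ mir A)) else 0).sum := by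
    rw [← hsum]
    congr 1
    refine List.map_congr_left fun q _ => ?_
    exact (hgen q).symm
  rw [hC2]
  have hA2 : ((plc [] A).map ((fun q => if okR R (plq 1 q) then PHI R W U D 1 (plq 1 q) else 0) ∘
      fun q => ((q.1, q.2.1, q.2.2.1, q.2.2.2 ++ C) : Pl))).sum =
      ((plc [] A).map fun q => if okR R (plq 1 (q.1, q.2.1, q.2.2.1, q.2.2.2 ++ C)) then
      PHI R W U D 1 (plq 1 (q.1, q.2.1, q.2.2.1, q.2.2.2 ++ C)) else 0).sum := rfl
  rw [hA2]
  have hPP : PHI R W U D 0 (mir C ++ mir A) = PHI R W U D 1 (A ++ C) := by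
    rw [← pot_mir_append]
    exact hm2 R W U D 1 (A ++ C) (by norm_num)
  rw [hPP, pot_mir_mir] at hC
  refine (add_le_add hA hC).trans ?_
  -- the sums
  set P : ℝ := PHI R W U D 1 (A ++ C) with hPdef
  have hP0 : 0 ≤ P := hP _
  set K1 : ℝ := U ^ 2 * (R / (2 * Real.exp 1) * (W / (W - 1))) with hK1
  have hK10 : 0 ≤ K1 := by
    have : 0 < W - 1 := by linarith
    positivity
  set K : ℝ := KK R W U with hK
  have hK0 : 0 ≤ K := by
    rw [hK]
    unfold KK
    positivity
  have e1 : (∑ c ∈ (range R).filter (fun c => c % 2 = 1), Real.exp (((R : ℝ) - 1 - c) / R)) +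
      (∑ c ∈ (range R).filter (fun c => c % 2 = 0), Real.exp (((R : ℝ) - 1 - c) / R)) ≤
      R * (Real.exp 1 - 1) := by
    refine le_trans (le_of_eq ?_) (h5.2 R hR)
    have h0 : (range R).filter (fun c => c % 2 = 0) = (range R).filter (fun c => ¬ c % 2 = 1) := by
      refine Finset.filter_congr fun c _ => ?_
      omega
    rw [h0]
    exact Finset.sum_filter_add_sum_filter_not _ _ _
  set I1 : Finset ℕ := pops 0 0 (mir A) with hI1
  set I2 : Finset ℕ := pops 1 0 C with hI2
  have hdisj : Disjoint I1 I2 := by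
    rw [Finset.disjoint_left]
    intro c hc1 hc2
    have k1 := (h7 0 0 (mir A)).2.1 c hc1
    have k2 := (h7 1 0 C).2.1 c hc2
    omega
  have e2 : (∑ c ∈ I1, 1 / U ^ ((I1 ∪ I2).filter (fun c' => c < c')).card) +
      (∑ c ∈ I2, 1 / U ^ ((I2 ∪ I1).filter (fun c' => c < c')).card) ≤ U / (U - 1) := by
    rw [Finset.union_comm I2 I1, ← Finset.sum_union hdisj]
    exact h5.1 U (I1 ∪ I2) hU
  have hlen : (((plc [] A).length : ℝ) + ((plc [] (mir C)).length : ℝ)) ≤ D := by
    refine le_trans ?_ hmD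
    have k1 : (plc [] A).length + (plc [] (mir C)).length = st.flatten.length + st.length := by
      have k2 : (plc [] (mir C)).length = (plc [] C).length := by
        rw [← (hm3 C).length_eq, List.length_map]
      rw [k2, h6 m0 A, h6 m0 C, hAC, List.flatten_append, List.length_append, List.length_append]
      omega
    have k3 := pot_flat_len m0 st hokM
    rw [hst] at k3 k1
    have k4 : (plc [] A).length + (plc [] (mir C)).length ≤ (m0 + 1) * m := by
      rw [k1]
      nlinarith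
    exact_mod_cast k4
  have e3 : K * ((plc [] A).length : ℝ) / D + K * ((plc [] (mir C)).length : ℝ) / D ≤ K := by
    rw [← add_div, ← mul_add, div_le_iff₀ (by linarith)]
    exact mul_le_mul_of_nonneg_left hlen hK0
  have hmm : (0 : ℝ) ≤ m0 := Nat.cast_nonneg _
  set s1 : ℝ := ∑ c ∈ (range R).filter (fun c => c % 2 = 1), Real.exp (((R : ℝ) - 1 - c) / R)
  set s2 : ℝ := ∑ c ∈ (range R).filter (fun c => c % 2 = 0), Real.exp (((R : ℝ) - 1 - c) / R)
  set t1 : ℝ := ∑ c ∈ I1, 1 / U ^ ((I1 ∪ I2).filter (fun c' => c < c')).card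
  set t2 : ℝ := ∑ c ∈ I2, 1 / U ^ ((I2 ∪ I1).filter (fun c' => c < c')).card
  set x1 : ℝ := K * ((plc [] A).length : ℝ) / D
  set x2 : ℝ := K * ((plc [] (mir C)).length : ℝ) / D
  have hlam : lam R m0 W U = K1 * (R * (Real.exp 1 - 1)) + K * (m0 * (U / (U - 1)) + 3) := by
    unfold lam
    rw [hK1, hK]
    ring
  have f1 : K1 * s1 + K1 * s2 ≤ K1 * (R * (Real.exp 1 - 1)) := by
    rw [← mul_add]
    exact mul_le_mul_of_nonneg_left e1 hK10
  have f2 : K * m0 * t1 + K * m0 * t2 ≤ K * m0 * (U / (U - 1)) := by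
    rw [← mul_add]
    exact mul_le_mul_of_nonneg_left e2 (mul_nonneg hK0 hmm)
  show P * (K1 * s1 + K * m0 * t1 + K + x1) + P * (K1 * s2 + K * m0 * t2 + K + x2) ≤
    lam R m0 W U * P
  rw [hlam, ← mul_add, mul_comm _ P]
  refine mul_le_mul_of_nonneg_left ?_ hP0
  linarith

end Pool.Agent.H99.STK
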