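import Pool.Agent.H47.ST.Targets

/-!
Steingrimsson's conjecture (MP_78620a_co): words and permutations.
-/

namespace Pool.Agent.H99.STK

open Finset Pool.Agent.H47.ST

theorem wrd_iter (F : List ℕ → List ℕ) (hF : ∀ w, F (w.map Nat.succ) = (F w).map Nat.succ)
    (t : ℕ) (w : List ℕ) : F^[t] (w.map Nat.succ) = (F^[t] w).map Nat.succ := by
  induction t generalizing w with
  | zero => rfl
  | succ t ih => rw [Function.iterate_succ_apply, Function.iterate_succ_apply, hF, ih]

theorem wrd_inj (n : ℕ) :
    Function.Injective (fun π : Equiv.Perm (Fin n) => List.ofFn (fun i => (π i : ℕ))) := by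
  intro π π' h
  have h1 := List.ofFn_injective h
  ext i
  exact congrFun h1 i

theorem wrd_surj (n : ℕ) (w : List ℕ) (hw : w.Perm (List.range n)) :
    ∃ π : Equiv.Perm (Fin n), List.ofFn (fun i => (π i : ℕ)) = w := by
  have hlen : w.length = n := by rw [hw.length_eq, List.length_range]
  have hnd : w.Nodup := hw.nodup_iff.2 List.nodup_range
  have hlt : ∀ (i : ℕ) (hi : i < w.length), w[i] < n := fun i hi =>
    List.mem_range.1 (hw.mem_iff.1 (List.getElem_mem hi))
  let g : Fin n → Fin n := fun i => ⟨w[(i : ℕ)]'(by rw [hlen]; exact i.2), hlt _ _⟩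
  have hg : Function.Injective g := by
    intro i j hij
    have h1 : w[(i : ℕ)]'(by rw [hlen]; exact i.2) = w[(j : ℕ)]'(by rw [hlen]; exact j.2) :=
      congrArg Fin.val hij
    exact Fin.ext ((hnd.getElem_inj_iff).1 h1)
  refine ⟨Equiv.ofBijective g (Finite.injective_iff_bijective.1 hg), ?_⟩
  refine List.ext_getElem (by rw [List.length_ofFn, hlen]) ?_
  intro i h1 h2
  rw [List.getElem_ofFn]
  rfl

theorem wrd_gen (F : List ℕ → List ℕ) (hF : ∀ w, F (w.map Nat.succ) = (F w).map Nat.succ)
    (n t : ℕ) : cnt F n t = Set.ncard {w : List ℕ | w.Perm (List.range n) ∧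
      F^[t] w = List.range n} := by
  have hword : ∀ π : Equiv.Perm (Fin n),
      word π = (List.ofFn (fun i => (π i : ℕ))).map Nat.succ := by
    intro π
    unfold word
    rw [List.map_ofFn]
    rfl
  have hone : List.ofFn (fun i : Fin n => ((1 : Equiv.Perm (Fin n)) i : ℕ)) = List.range n := by
    refine List.ext_getElem (by rw [List.length_ofFn, List.length_range]) ?_
    intro i h1 h2
    rw [List.getElem_ofFn, List.getElem_range]
    rfl
  have hinjs : Function.Injective (List.map Nat.succ) :=
    List.map_injective_iff.2 Nat.succ_injective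
  have hiff : ∀ π : Equiv.Perm (Fin n), F^[t] (word π) = word (1 : Equiv.Perm (Fin n)) ↔
      F^[t] (List.ofFn (fun i => (π i : ℕ))) = List.range n := by
    intro π
    rw [hword, hword, wrd_iter F hF, hone]
    exact hinjs.eq_iff
  have himg : {w : List ℕ | w.Perm (List.range n) ∧ F^[t] w = List.range n} =
      (fun π : Equiv.Perm (Fin n) => List.ofFn (fun i => (π i : ℕ))) ''
        {π : Equiv.Perm (Fin n) | F^[t] (word π) = word (1 : Equiv.Perm (Fin n))} := by
    ext w
    constructor
    · rintro ⟨h1, h2⟩
      obtain ⟨π, rfl⟩ := wrd_surj n w h1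
      exact ⟨π, (hiff π).2 h2, rfl⟩
    · rintro ⟨π, h1, rfl⟩
      refine ⟨?_, (hiff π).1 h1⟩
      have h2 : List.ofFn (fun i => (π i : ℕ)) = (List.ofFn (fun i => π i)).map Fin.val := by
        rw [List.map_ofFn]
        rfl
      have h3 : List.range n = (List.finRange n).map Fin.val := by
        rw [List.map_coe_finRange_eq_range]
      show (List.ofFn (fun i => (π i : ℕ))).Perm (List.range n)
      rw [h2, h3]
      refine List.Perm.map _ ?_
      refine (List.perm_ext_iff_of_nodup ?_ (List.nodup_finRange n)).2 ?_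
      · exact List.nodup_ofFn.2 π.injective
      · intro a
        constructor
        · intro _
          exact List.mem_finRange a
        · intro _
          rw [List.mem_ofFn]
          exact ⟨π.symm a, π.apply_symm_apply a⟩
  rw [himg, Set.ncard_image_of_injective _ (wrd_inj n)]
  unfold cnt
  exact Nat.card_coe_set_eq _

theorem pf_WRD (h1 : T_SUC) : T_WRD := by
  intro n t
  refine ⟨wrd_gen S h1 n t, wrd_gen T ?_ n t⟩
  intro w
  unfold T
  rw [← List.map_reverse, h1]

end Pool.Agent.H99.STK
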